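import Pool.Agent.Helper75.PX.Stmts

set_option autoImplicit false

universe u

open Module TensorProduct

namespace Pool.Agent.Helper75.PX

theorem I4_smul_one {K A : Type u} [Field K] [Ring A] [Algebra K A] (t : K) (x : A) (hx : x ≠ 0)
    (h : t • x = 0) : t = 0 := by
  rcases smul_eq_zero.1 h with h | h
  · exact h
  · exact absurd h hx

theorem I4_half {K A : Type u} [Field K] [Ring A] [Algebra K A] (h2 : (2 : K) ≠ 0) (x y : A)
    (h1 : x + y = 0) (h3 : x - y = 0) : x = 0 ∧ y = 0 := by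
  have h4 : (2 : K) • x = 0 := by
    rw [two_smul]
    calc x + x = (x + y) + (x - y) := by abel
      _ = 0 := by rw [h1, h3, add_zero]
  have h5 : x = 0 := by
    rcases smul_eq_zero.1 h4 with h | h
    · exact absurd h h2
    · exact h
  refine ⟨h5, ?_⟩
  rw [h5, zero_add] at h1
  exact h1

theorem st_I4 : ST_I4.{u} := by
  intro K A _ _ _ _ α β z w a b p r v h2 D t ht
  have hα : α ≠ 0 := by
    intro h
    have := D.haa
    rw [h, zero_mul] at this
    exact D.a0 ((map_eq_zero _).1 this.symm)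
  have hβ : β ≠ 0 := by
    intro h
    have := D.hbb
    rw [h, zero_mul] at this
    exact D.b0 ((map_eq_zero _).1 this.symm)
  have hαβ : α * β ≠ 0 := by
    intro h
    have h3 : (α * β) * (β * α) = algebraMap K A (a * b) := by
      rw [mul_assoc, ← mul_assoc β β α, D.hbb, Algebra.commutes, ← mul_assoc, D.haa, map_mul]
    rw [h, zero_mul] at h3
    exact mul_ne_zero D.a0 D.b0 ((map_eq_zero _).1 h3.symm)
  simp only [uE] at ht
  have e1 : z * (t 0 • (1 : A) + t 1 • α + t 2 • β + t 3 • (α * β)) =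
      (t 0 • (1 : A) + t 2 • β - (t 1 • α + t 3 • (α * β))) * z := by
    have h3 : z * (α * β) = -(α * β * z) := by
      rw [← mul_assoc, D.hza, neg_mul, mul_assoc, D.hzb, ← mul_assoc]
    simp only [mul_add, add_mul, sub_mul, mul_smul_comm, smul_mul_assoc, mul_one, one_mul, D.hza,
      D.hzb, h3, smul_neg]
    abel
  rw [ht, mul_zero] at e1
  have e2 : t 0 • (1 : A) + t 2 • β - (t 1 • α + t 3 • (α * β)) = 0 :=
    (D.uz.mul_left_eq_zero).1 e1.symm
  have e3 : (t 0 • (1 : A) + t 2 • β) + (t 1 • α + t 3 • (α * β)) = 0 := by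
    rw [← ht]; abel
  obtain ⟨f1, f2⟩ := I4_half h2 _ _ e3 e2
  have g1 : w * (t 0 • (1 : A) + t 2 • β) = (t 0 • (1 : A) - t 2 • β) * w := by
    simp only [mul_add, sub_mul, mul_smul_comm, smul_mul_assoc, mul_one, one_mul, D.hwb, smul_neg]
    abel
  rw [f1, mul_zero] at g1
  have g2 : t 0 • (1 : A) - t 2 • β = 0 := (D.uw.mul_left_eq_zero).1 g1.symm
  obtain ⟨k0, k2⟩ := I4_half h2 _ _ f1 g2
  have g3 : w * (t 1 • α + t 3 • (α * β)) = (t 1 • α - t 3 • (α * β)) * w := by
    have h3 : w * (α * β) = -(α * β * w) := by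
      rw [← mul_assoc, D.hwa, mul_assoc, D.hwb, mul_neg, ← mul_assoc]
    simp only [mul_add, sub_mul, mul_smul_comm, smul_mul_assoc, D.hwa, h3, smul_neg]
    abel
  rw [f2, mul_zero] at g3
  have g4 : t 1 • α - t 3 • (α * β) = 0 := (D.uw.mul_left_eq_zero).1 g3.symm
  obtain ⟨k1, k3⟩ := I4_half h2 _ _ f2 g4
  have q0 := I4_smul_one _ _ one_ne_zero k0
  have q1 := I4_smul_one _ _ hα k1
  have q2 := I4_smul_one _ _ hβ k2
  have q3 := I4_smul_one _ _ hαβ k3
  funext i
  fin_cases i
  · exact q0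
  · exact q1
  · exact q2
  · exact q3

end Pool.Agent.Helper75.PX
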